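import Mathlib
import Pool.Agent.N735.CL.Ti3

/-!
# Ties in the prime number races, for almost all patterns

Pomerance asked for an unconditional proof that the set of the ties `π(x; q, a) = π(x; q, b)` has density `0`. The race is
run along the intervals `1, 2, ..., n`. We replace the interval by an arbitrary pattern `h_1, ..., h_K` of numbers from
`{1, ..., X}`, count the primes of the classes among `x + h_1, ..., x + h_K` and let `x` vary from `1` to `X`. For all but
`θ X^K` of the patterns, the number of the `x ≤ X` at which the counts of some two reduced classes differ by at most `J` is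
below `(C / θ) (J + 1) (log X / K)^(1/2) X`, uniformly in `K`, `J`, `θ`. So the ties have density `o(1)` as soon as
`K / log X` tends to infinity, and so have the near ties up to `J = o((K / log X)^(1/2))`.

The proof uses the characteristic function of the difference of the counts at the roots of unity of order about
`(K / log X)^(1/2)`; it is a `K`-th power by independence, and the prime number theorem in arithmetic progressions bounds it.
-/

set_option autoImplicit false
set_option maxHeartbeats 1000000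

namespace Pool.Agent.Results.MP_8d92d6_nt.TiesForPatterns

open Finset Filter Topology
open Pool.Agent.N735.CL (Cq Nn)

/-- the patterns: the sequences of `K` numbers from `{1, ..., X}` -/
def patterns (X K : ℕ) : Finset (Fin K → ℕ) := Fintype.piFinset fun _ => Icc 1 X

open Classical in
/-- the proportion of the patterns which have the property `B` -/
noncomputable def proportion (X K : ℕ) (B : (Fin K → ℕ) → Prop) : ℝ :=
  (((patterns X K).filter B).card : ℝ) / (patterns X K).card

/-- the number of the primes `≡ a (mod q)` among the `x + h_i` -/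
def classCount {K : ℕ} (q a : ℕ) (h : Fin K → ℕ) (x : ℕ) : ℕ :=
  (univ.filter (fun i : Fin K => (x + h i).Prime ∧ x + h i ≡ a [MOD q])).card

open Classical in
/-- the `x ≤ X` at which the counts of two different reduced classes differ by at most `J`; `J = 0`: the ties -/
noncomputable def ties {K : ℕ} (q J X : ℕ) (h : Fin K → ℕ) : Finset ℕ :=
  (Icc 1 X).filter (fun x => ∃ a b : ℕ, a.Coprime q ∧ b.Coprime q ∧ ¬ a ≡ b [MOD q] ∧
    classCount q a h x ≤ classCount q b h x + J ∧ classCount q b h x ≤ classCount q a h x + J)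

lemma prop_eq {X K : ℕ} (B : (Fin K → ℕ) → Prop) : proportion X K B = Pool.Agent.N735.CL.PK X K B := by
  classical
  rw [Pool.Agent.N735.CL.PK_eq]
  unfold proportion
  have h0 : patterns X K = Pool.Agent.N735.CL.Om X K := rfl
  rw [h0, Pool.Agent.N735.CL.card_Om]
  push_cast
  congr!

lemma classCount_mod {K : ℕ} (q a : ℕ) (h : Fin K → ℕ) (x : ℕ) : classCount q (a % q) h x = classCount q a h x := by
  unfold classCount
  congr 2
  ext i
  have : x + h i ≡ a % q [MOD q] ↔ x + h i ≡ a [MOD q] :=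
    ⟨fun h => h.trans (Nat.mod_modEq a q), fun h => h.trans (Nat.mod_modEq a q).symm⟩
  rw [this]

/-- Ties are rare for almost all patterns. -/
theorem rare {q : ℕ} (hq : 1 ≤ q) :
    ∃ C : ℝ, ∃ X₀ : ℕ, ∀ X : ℕ, X₀ ≤ X → ∀ K : ℕ, 1 ≤ K → ∀ J : ℕ, ∀ θ : ℝ, 0 < θ →
      1 - θ ≤ proportion X K (fun h => ((ties q J X h).card : ℝ) < C / θ * ((J + 1) * Real.sqrt (Real.log X / K) * X)) := by
  classical
  set P := ((Cq q) ×ˢ (Cq q)).filter (fun p => ¬ p.1 ≡ p.2 [MOD q]) with hP
  set n : ℝ := (P.card : ℝ) + 1 with hn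
  have hn0 : 0 < n := by positivity
  have hφ0 : (0 : ℝ) < Nat.totient q := by exact_mod_cast Nat.totient_pos.2 hq
  have hsφ : 0 < Real.sqrt (Nat.totient q) := Real.sqrt_pos.2 hφ0
  have hC : ∀ p ∈ P, ∀ᶠ X : ℕ in atTop, ∀ K : ℕ, 1 ≤ K → ∀ J : ℕ, ∀ θ : ℝ, 0 < θ →
      Pool.Agent.N735.CL.PK X K (fun h => 8 * Real.sqrt (Nat.totient q) / θ * ((2 * J + 1) * Real.sqrt (Real.log X / K) * X) ≤
        (((Icc 1 X).filter (fun x => Nn q p.1 h x ≤ Nn q p.2 h x + J ∧ Nn q p.2 h x ≤ Nn q p.1 h x + J)).card : ℝ)) ≤ θ := by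
    intro p hp
    rw [hP, mem_filter, mem_product] at hp
    exact Pool.Agent.N735.CL.ties_unif hq hp.1.1 hp.1.2 hp.2
  have h2 := (eventually_all_finset P).2 hC
  obtain ⟨X₀, hX₀⟩ := eventually_atTop.1 h2
  refine ⟨16 * Real.sqrt (Nat.totient q) * n ^ 2, max X₀ 3, fun X hX K hK J θ hθ => ?_⟩
  have hX3 : 3 ≤ X := (le_max_right _ _).trans hX
  have hX1 : 1 ≤ X := by omega
  have hX0 : (0 : ℝ) < X := by exact_mod_cast hX1
  have hK0 : (0 : ℝ) < K := by exact_mod_cast (by omega : 0 < K)
  have hL : 0 < Real.log (X : ℝ) := Real.log_pos (by exact_mod_cast (by omega : 1 < X))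
  have hs0 : 0 < Real.sqrt (Real.log X / K) := Real.sqrt_pos.2 (by positivity)
  set T : ℝ := 8 * Real.sqrt (Nat.totient q) / (θ / n) * ((2 * J + 1) * Real.sqrt (Real.log X / K) * X) with hT
  have hT0 : 0 < T := by positivity
  have h3 : ∀ p ∈ P, Pool.Agent.N735.CL.PK X K (fun h => T ≤
        (((Icc 1 X).filter (fun x => Nn q p.1 h x ≤ Nn q p.2 h x + J ∧ Nn q p.2 h x ≤ Nn q p.1 h x + J)).card : ℝ)) ≤ θ / n := by
    intro p hp
    exact hX₀ X ((le_max_left _ _).trans hX) p hp K hK J (θ / n) (by positivity)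
  have h4 := (Pool.Agent.N735.CL.PK_exists (X := X) (K := K) P (fun p h => T ≤
        (((Icc 1 X).filter (fun x => Nn q p.1 h x ≤ Nn q p.2 h x + J ∧ Nn q p.2 h x ≤ Nn q p.1 h x + J)).card : ℝ))).trans
      (sum_le_sum h3)
  have h5 : ∑ p ∈ P, θ / n ≤ θ := by
    rw [sum_const, nsmul_eq_mul, mul_div_assoc', div_le_iff₀ hn0, mul_comm]
    exact mul_le_mul_of_nonneg_left (by linarith) hθ.le
  rw [prop_eq]
  set R : ℝ := 16 * Real.sqrt (Nat.totient q) * n ^ 2 / θ * ((J + 1) * Real.sqrt (Real.log X / K) * X) with hR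
  have hTR : n * T ≤ R := by
    have e1 : R = n * (8 * Real.sqrt (Nat.totient q) / (θ / n) * ((2 * (J + 1)) * Real.sqrt (Real.log X / K) * X)) := by
      rw [hR]
      field_simp
      ring
    rw [e1, hT]
    apply mul_le_mul_of_nonneg_left _ hn0.le
    apply mul_le_mul_of_nonneg_left _ (by positivity)
    apply mul_le_mul_of_nonneg_right _ hX0.le
    apply mul_le_mul_of_nonneg_right _ hs0.le
    linarith
  have h6 := Pool.Agent.N735.CL.PK_not hX1 (K := K) (fun h => ((ties q J X h).card : ℝ) < R)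
  have h7 : Pool.Agent.N735.CL.PK X K (fun h => ¬ ((ties q J X h).card : ℝ) < R) ≤
      Pool.Agent.N735.CL.PK X K (fun h => ∃ p ∈ P, T ≤
        (((Icc 1 X).filter (fun x => Nn q p.1 h x ≤ Nn q p.2 h x + J ∧ Nn q p.2 h x ≤ Nn q p.1 h x + J)).card : ℝ)) := by
    apply Pool.Agent.N735.CL.PK_mono
    intro h _ hh
    by_contra hc
    push Not at hc
    apply hh
    have g1 : (ties q J X h).card ≤ ∑ p ∈ P, ((Icc 1 X).filter (fun x => Nn q p.1 h x ≤ Nn q p.2 h x + J ∧ Nn q p.2 h x ≤ Nn q p.1 h x + J)).card := by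
      refine le_trans (card_le_card ?_) card_biUnion_le
      intro x hx
      unfold ties at hx
      rw [mem_filter] at hx
      obtain ⟨hx1, a, b, ha, hb, hab, h8, h9⟩ := hx
      rw [mem_biUnion]
      refine ⟨(a % q, b % q), ?_, ?_⟩
      · rw [hP, mem_filter, mem_product]
        refine ⟨⟨Pool.Agent.N735.CL.mod_mem_Cq hq ha, Pool.Agent.N735.CL.mod_mem_Cq hq hb⟩, ?_⟩
        intro h10
        exact hab (((Nat.mod_modEq a q).symm.trans h10).trans (Nat.mod_modEq b q))
      · rw [mem_filter]
        refine ⟨hx1, ?_⟩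
        have e1 : Nn q (a % q) h x = classCount q a h x := classCount_mod q a h x
        have e2 : Nn q (b % q) h x = classCount q b h x := classCount_mod q b h x
        simp only [e1, e2]
        exact ⟨h8, h9⟩
    have g2 : ((ties q J X h).card : ℝ) ≤ ∑ p ∈ P, (((Icc 1 X).filter (fun x => Nn q p.1 h x ≤ Nn q p.2 h x + J ∧ Nn q p.2 h x ≤ Nn q p.1 h x + J)).card : ℝ) := by
      exact_mod_cast g1
    have g3 : ∑ p ∈ P, (((Icc 1 X).filter (fun x => Nn q p.1 h x ≤ Nn q p.2 h x + J ∧ Nn q p.2 h x ≤ Nn q p.1 h x + J)).card : ℝ) ≤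
        ∑ p ∈ P, T := sum_le_sum (fun p hp => (hc p hp).le)
    have g4 : ∑ p ∈ P, T < n * T := by
      rw [sum_const, nsmul_eq_mul]
      apply mul_lt_mul_of_pos_right _ hT0
      rw [hn]
      linarith
    linarith
  linarith

/-- The ties in the races of the primes in the residue classes. -/
theorem result :
    -- the pattern `1, 2, ..., K`: the primes `≡ a (mod q)` in `(x, x + K]`
    (∀ q a K x : ℕ, classCount q a (fun i : Fin K => (i : ℕ) + 1) x =
      ((Ioc x (x + K)).filter (fun p => p.Prime ∧ p ≡ a [MOD q])).card) ∧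
    -- for all but the proportion `θ` of the patterns the ties, and the near ties up to `J`, are rare
    (∀ q : ℕ, 1 ≤ q → ∃ C : ℝ, ∃ X₀ : ℕ, ∀ X : ℕ, X₀ ≤ X → ∀ K : ℕ, 1 ≤ K → ∀ J : ℕ, ∀ θ : ℝ, 0 < θ →
      1 - θ ≤ proportion X K (fun h =>
        ((ties q J X h).card : ℝ) < C / θ * ((J + 1) * Real.sqrt (Real.log X / K) * X))) := by
  refine ⟨?_, ?_⟩
  · intro q a K x
    unfold classCount
    apply card_bij (fun (i : Fin K) _ => x + ((i : ℕ) + 1))
    · intro i hi
      rw [mem_filter] at hi
      rw [mem_filter, mem_Ioc]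
      have := i.isLt
      exact ⟨⟨by omega, by omega⟩, hi.2⟩
    · intro i _ j _ hij
      apply Fin.ext
      omega
    · intro p hp
      rw [mem_filter, mem_Ioc] at hp
      refine ⟨⟨p - x - 1, by omega⟩, ?_, by simp only; omega⟩
      rw [mem_filter]
      refine ⟨mem_univ _, ?_⟩
      have e : x + (p - x - 1 + 1) = p := by omega
      simp only [e]
      exact hp.2
  · intro q hq
    exact rare hq

end Pool.Agent.Results.MP_8d92d6_nt.TiesForPatterns
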